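import Mathlib

/-!
# The polymatroid bound of the complement of a Kneser graph

Let `f` be a polymatroid on the `q`-subsets of `Fin p` with `f {A} ≤ 1` and with
`f (insert A S) ≥ f S + 1` whenever `A` is disjoint from every member of `S`. If `2 q ≤ p` then
`f univ ≥ p / q`.
-/

set_option autoImplicit false

namespace Pool.Agent.helper37.KN

open Finset

/-- The numerical inequality behind the rotation average. -/
theorem numeric (L : ℕ → ℝ) (t q : ℕ) (s : ℝ) (ht : 1 ≤ t) (htq : 2 * t ≤ q) (h0 : L 0 = 0)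
    (hsub : ∀ a b, L (a + b) ≤ L a + L b) (hpair : ∀ a, a ≤ 2 * t → L a + L (2 * t - a) ≤ 2 * s) :
    t * L q ≤ s * q := by
  have hG0 : ∑ x ∈ range (2 * t), L x ≤ (2 * t - 1) * s := by
    obtain ⟨m, hm⟩ : ∃ m, 2 * t = m + 1 := ⟨2 * t - 1, by omega⟩
    have e1 : ∑ x ∈ range (2 * t), L x = ∑ i ∈ range m, L (i + 1) := by
      rw [hm, sum_range_succ', h0, add_zero]
    have e2 : ∑ i ∈ range m, L (i + 1) = ∑ i ∈ range m, L (m - i) := by
      rw [← sum_range_reflect (fun i => L (i + 1)) m]
      refine sum_congr rfl (fun i hi => ?_)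
      rw [mem_range] at hi
      congr 1
      omega
    have e3 : ∑ i ∈ range m, L (i + 1) + ∑ i ∈ range m, L (m - i) ≤ m * (2 * s) := by
      rw [← sum_add_distrib]
      have : ∑ i ∈ range m, (L (i + 1) + L (m - i)) ≤ ∑ _i ∈ range m, (2 * s) := by
        refine sum_le_sum (fun i hi => ?_)
        rw [mem_range] at hi
        have := hpair (i + 1) (by omega)
        have e : 2 * t - (i + 1) = m - i := by omega
        rw [e] at this
        exact this
      simpa using this
    have e4 : (2 * (t : ℝ) - 1) = m := by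
      have : ((2 * t : ℕ) : ℝ) = ((m + 1 : ℕ) : ℝ) := by rw [hm]
      push_cast at this
      linarith
    rw [e1, e4]
    rw [← e2] at e3
    linarith
  have h2t : L (2 * t) ≤ 2 * s := by
    have := hpair 0 (by omega)
    simp only [h0, Nat.sub_zero, zero_add] at this
    exact this
  have hG : ∀ n : ℕ, ∑ x ∈ range (2 * t), L (n + x) ≤ 2 * s * n + (2 * t - 1) * s := by
    intro n
    induction n with
    | zero => simpa using hG0
    | succ n ih =>
      have e1 : ∑ x ∈ range (2 * t), L (n + 1 + x) + L n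
          = ∑ x ∈ range (2 * t), L (n + x) + L (n + 2 * t) := by
        have a1 := sum_range_succ (fun x => L (n + x)) (2 * t)
        have a2 := sum_range_succ' (fun x => L (n + x)) (2 * t)
        have a3 : ∑ x ∈ range (2 * t), L (n + (x + 1)) = ∑ x ∈ range (2 * t), L (n + 1 + x) := by
          refine sum_congr rfl (fun x _ => ?_)
          congr 1
          omega
        rw [a3] at a2
        simp only [add_zero] at a2
        linarith
      have e2 := hsub n (2 * t)
      push_cast
      linarith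
  have hfin : ∑ x ∈ range (2 * t), L q
      ≤ ∑ x ∈ range (2 * t), L x + ∑ x ∈ range (2 * t), L ((q - (2 * t - 1)) + x) := by
    have e1 : ∑ x ∈ range (2 * t), L ((q - (2 * t - 1)) + x) = ∑ x ∈ range (2 * t), L (q - x) := by
      rw [← sum_range_reflect (fun x => L ((q - (2 * t - 1)) + x)) (2 * t)]
      refine sum_congr rfl (fun x hx => ?_)
      rw [mem_range] at hx
      congr 1
      omega
    rw [e1, ← sum_add_distrib]
    refine sum_le_sum (fun x hx => ?_)
    rw [mem_range] at hx
    have := hsub x (q - x)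
    have e : x + (q - x) = q := by omega
    rwa [e] at this
  have hq := hG (q - (2 * t - 1))
  rw [sum_const, card_range, nsmul_eq_mul] at hfin
  have e5 : ((q - (2 * t - 1) : ℕ) : ℝ) = q - (2 * t - 1) := by
    rw [Nat.cast_sub (by omega), Nat.cast_sub (by omega)]
    push_cast
    ring
  rw [e5] at hq
  push_cast at hfin
  nlinarith

/-- A polymatroid on the `q`-subsets of a `p`-set in which a set disjoint from all members of a
family adds one to the rank of the family. -/
structure Poly (p q : ℕ) (f : Finset {s : Finset (Fin p) // s.card = q} → ℝ) : Prop where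
  zero : f ∅ = 0
  mono : ∀ S T, S ⊆ T → f S ≤ f T
  sub : ∀ S T, f (S ∪ T) + f (S ∩ T) ≤ f S + f T
  one : ∀ A, f {A} ≤ 1
  step : ∀ (A : {s : Finset (Fin p) // s.card = q}) (S : Finset {s : Finset (Fin p) // s.card = q}),
    (∀ B ∈ S, Disjoint A.1 B.1) → f S + 1 ≤ f (insert A S)

variable {p q : ℕ} {f : Finset {s : Finset (Fin p) // s.card = q} → ℝ}

/-- the `q`-subsets of `S` -/
def LL (q : ℕ) {p : ℕ} (S : Finset (Fin p)) : Finset {s : Finset (Fin p) // s.card = q} :=
  univ.filter (fun A => A.1 ⊆ S)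

theorem mem_LL {S : Finset (Fin p)} {A : {s : Finset (Fin p) // s.card = q}} :
    A ∈ LL q S ↔ A.1 ⊆ S := by
  simp [LL]

theorem Poly.single (h : Poly p q f) (A : {s : Finset (Fin p) // s.card = q}) : f {A} = 1 := by
  apply le_antisymm (h.one A)
  have := h.step A ∅ (by simp)
  rw [h.zero, insert_empty] at this
  linarith

theorem Poly.pair (h : Poly p q f) (A B : {s : Finset (Fin p) // s.card = q})
    (hAB : Disjoint A.1 B.1) : 2 ≤ f {A, B} := by
  have := h.step A {B} (by
    intro C hC
    rw [mem_singleton] at hC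
    rw [hC]
    exact hAB)
  rw [h.single] at this
  linarith

/-- Adding disjoint sets one after the other. -/
theorem Poly.add_disjoint (h : Poly p q f) (k : ℕ) :
    ∀ (S : Finset {s : Finset (Fin p) // s.card = q}) (R : Finset (Fin p)),
      k * q ≤ R.card → (∀ B ∈ S, Disjoint R B.1) → f S + k ≤ f univ := by
  induction k with
  | zero =>
    intro S R _ _
    simpa using h.mono S univ (subset_univ S)
  | succ k ih =>
    intro S R hR hS
    obtain ⟨A, hAR, hA⟩ := exists_subset_card_eq (show q ≤ R.card by nlinarith)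
    have h1 := h.step ⟨A, hA⟩ S (fun B hB => (hS B hB).mono_left hAR)
    have h2 := ih (insert ⟨A, hA⟩ S) (R \ A) (by
      rw [card_sdiff_of_subset hAR, hA]
      have : (k + 1) * q = k * q + q := by ring
      omega) (by
      intro B hB
      rw [mem_insert] at hB
      rcases hB with rfl | hB
      · exact sdiff_disjoint
      · exact (hS B hB).mono_left sdiff_subset)
    push_cast
    linarith

/-- all sets of size `q + t` have rank at most `1 + s` -/
def PP (p q : ℕ) (f : Finset {s : Finset (Fin p) // s.card = q} → ℝ) (t : ℕ) (s : ℝ) : Prop :=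
  ∀ S : Finset (Fin p), S.card = q + t → f (LL q S) ≤ 1 + s

theorem Poly.sub4 (h : Poly p q f) {t : ℕ} {s : ℝ} (hP : PP p q f t s)
    (S S' : Finset (Fin p)) (hS : S.card = q + t) (hS' : S'.card = q + t)
    (A B : {s : Finset (Fin p) // s.card = q}) (hA : A.1 ⊆ S) (hB : B.1 ⊆ S')
    (T : Finset {s : Finset (Fin p) // s.card = q}) (hT : ∀ C ∈ T, C.1 ⊆ S ∧ C.1 ⊆ S') :
    f {A, B} + f T ≤ 2 + 2 * s := by
  have h1 : f (insert A T) ≤ 1 + s := by
    refine le_trans (h.mono _ _ ?_) (hP S hS)
    intro C hC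
    rw [mem_LL]
    rw [mem_insert] at hC
    rcases hC with rfl | hC
    · exact hA
    · exact (hT C hC).1
  have h2 : f (insert B T) ≤ 1 + s := by
    refine le_trans (h.mono _ _ ?_) (hP S' hS')
    intro C hC
    rw [mem_LL]
    rw [mem_insert] at hC
    rcases hC with rfl | hC
    · exact hB
    · exact (hT C hC).2
  have h3 := h.sub (insert A T) (insert B T)
  have h4 : f {A, B} ≤ f (insert A T ∪ insert B T) := by
    apply h.mono
    intro C hC
    rw [mem_insert, mem_singleton] at hC
    rw [mem_union, mem_insert, mem_insert]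
    tauto
  have h5 : f T ≤ f (insert A T ∩ insert B T) := by
    apply h.mono
    intro C hC
    rw [mem_inter, mem_insert, mem_insert]
    tauto
  linarith

/-- the doubling step -/
theorem Poly.rec_step (h : Poly p q f) {t : ℕ} {s : ℝ} (hP : PP p q f t s) (ht : t ≤ q)
    (htq : q ≤ 2 * t) (hpq : 2 * q ≤ p) : PP p q f (2 * t - q) (2 * s - 1) := by
  intro T hT
  have hT2 : T.card = 2 * t := by omega
  have hc : Tᶜ.card = p - 2 * t := by rw [card_compl, Fintype.card_fin, hT2]
  obtain ⟨X, hX, hXc⟩ := exists_subset_card_eq (show q - t ≤ Tᶜ.card by omega)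
  have hc2 : (Tᶜ \ X).card = p - 2 * t - (q - t) := by
    rw [card_sdiff_of_subset hX, hc, hXc]
  obtain ⟨Y, hY, hYc⟩ := exists_subset_card_eq (show q - t ≤ (Tᶜ \ X).card by omega)
  obtain ⟨T1, hT1, hT1c⟩ := exists_subset_card_eq (show t ≤ T.card by omega)
  have hT2c : (T \ T1).card = t := by
    rw [card_sdiff_of_subset hT1, hT2, hT1c]
    omega
  have dXT : Disjoint X T := by
    rw [disjoint_left]
    intro a ha haT
    have := hX ha
    rw [mem_compl] at this
    exact this haT
  have dYT : Disjoint Y T := by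
    rw [disjoint_left]
    intro a ha haT
    have := hY ha
    rw [mem_sdiff, mem_compl] at this
    exact this.1 haT
  have dXY : Disjoint X Y := by
    rw [disjoint_left]
    intro a ha haY
    have := hY haY
    rw [mem_sdiff] at this
    exact this.2 ha
  have cA : (X ∪ T1).card = q := by
    rw [card_union_of_disjoint (dXT.mono_right hT1), hXc, hT1c]
    omega
  have cB : (Y ∪ (T \ T1)).card = q := by
    rw [card_union_of_disjoint (dYT.mono_right sdiff_subset), hYc, hT2c]
    omega
  have cS : (T ∪ X).card = q + t := by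
    rw [card_union_of_disjoint dXT.symm, hXc, hT2]
    omega
  have cS' : (T ∪ Y).card = q + t := by
    rw [card_union_of_disjoint dYT.symm, hYc, hT2]
    omega
  have hdis : Disjoint (X ∪ T1) (Y ∪ (T \ T1)) := by
    rw [disjoint_union_left, disjoint_union_right, disjoint_union_right]
    exact ⟨⟨dXY, dXT.mono_right sdiff_subset⟩, ⟨(dYT.mono_right hT1).symm, disjoint_sdiff⟩⟩
  have key := h.sub4 hP (T ∪ X) (T ∪ Y) cS cS' ⟨X ∪ T1, cA⟩ ⟨Y ∪ (T \ T1), cB⟩
    (union_subset subset_union_right (hT1.trans subset_union_left))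
    (union_subset subset_union_right (sdiff_subset.trans subset_union_left)) (LL q T) (by
      intro C hC
      rw [mem_LL] at hC
      exact ⟨hC.trans subset_union_left, hC.trans subset_union_left⟩)
  have := h.pair ⟨X ∪ T1, cA⟩ ⟨Y ∪ (T \ T1), cB⟩ hdis
  linarith

/-- a cyclic interval of length `m` in the first `2 q` points -/
def KK (p q : ℕ) (hpq : 2 * q ≤ p) [NeZero (2 * q)] (m : ℕ) (x : ZMod (2 * q)) :
    Finset (Fin p) :=
  (range m).image (fun i : ℕ => ⟨(x + (i : ZMod (2 * q))).val,
    lt_of_lt_of_le (ZMod.val_lt _) hpq⟩)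

theorem KK_card (hpq : 2 * q ≤ p) [NeZero (2 * q)] (m : ℕ) (hm : m ≤ 2 * q)
    (x : ZMod (2 * q)) : (KK p q hpq m x).card = m := by
  unfold KK
  rw [card_image_of_injOn, card_range]
  intro i hi j hj hij
  rw [coe_range, Set.mem_Iio] at hi hj
  simp only [Fin.mk.injEq] at hij
  have h1 := ZMod.val_injective _ hij
  have h2 : (i : ZMod (2 * q)) = (j : ZMod (2 * q)) := add_left_cancel h1
  rw [ZMod.natCast_eq_natCast_iff'] at h2
  rw [Nat.mod_eq_of_lt (by omega), Nat.mod_eq_of_lt (by omega)] at h2
  exact h2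

theorem KK_sub (hpq : 2 * q ≤ p) [NeZero (2 * q)] (m n b : ℕ) (hb : b + n ≤ m)
    (x y : ZMod (2 * q)) (hy : y = x + (b : ZMod (2 * q))) :
    KK p q hpq n y ⊆ KK p q hpq m x := by
  intro a ha
  unfold KK at ha ⊢
  rw [mem_image] at ha ⊢
  obtain ⟨i, hi, rfl⟩ := ha
  rw [mem_range] at hi
  refine ⟨b + i, by rw [mem_range]; omega, ?_⟩
  simp only [Fin.mk.injEq]
  congr 1
  rw [hy]
  push_cast
  ring

/-- the cyclic intervals of length `q` -/
def JJ (p q : ℕ) (hpq : 2 * q ≤ p) [NeZero (2 * q)] (x : ZMod (2 * q)) :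
    {s : Finset (Fin p) // s.card = q} :=
  ⟨KK p q hpq q x, KK_card hpq q (by omega) x⟩

theorem JJ_disjoint (hpq : 2 * q ≤ p) [NeZero (2 * q)] (x : ZMod (2 * q)) :
    Disjoint (JJ p q hpq x).1 (JJ p q hpq (x + (q : ZMod (2 * q)))).1 := by
  rw [disjoint_left]
  intro a ha hb
  unfold JJ KK at ha hb
  simp only [mem_image, mem_range] at ha hb
  obtain ⟨i, hi, rfl⟩ := ha
  obtain ⟨j, hj, hij⟩ := hb
  simp only [Fin.mk.injEq] at hij
  have h1 := ZMod.val_injective _ hij
  have h2 : ((q + j : ℕ) : ZMod (2 * q)) = (i : ZMod (2 * q)) := by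
    push_cast
    rw [add_assoc] at h1
    exact add_left_cancel h1
  rw [ZMod.natCast_eq_natCast_iff'] at h2
  rw [Nat.mod_eq_of_lt (by omega), Nat.mod_eq_of_lt (by omega)] at h2
  omega

theorem Poly.base_step (h : Poly p q f) {t : ℕ} {s : ℝ} (hP : PP p q f t s) (ht : 1 ≤ t)
    (htq : 2 * t ≤ q) (hpq : 2 * q ≤ p) : (t : ℝ) ≤ s * q := by
  haveI : NeZero (2 * q) := ⟨by omega⟩
  let J := JJ p q hpq
  let L : ℕ → ℝ := fun a => ∑ x : ZMod (2 * q), (f {J x, J (x + (a : ZMod (2 * q)))} - 1)
  have h0 : L 0 = 0 := by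
    refine sum_eq_zero (fun x _ => ?_)
    rw [Nat.cast_zero, add_zero, pair_eq_singleton, h.single, sub_self]
  have hsub : ∀ a b, L (a + b) ≤ L a + L b := by
    intro a b
    have e1 : L b = ∑ x : ZMod (2 * q), (f {J (x + (a : ZMod (2 * q))),
        J (x + (a : ZMod (2 * q)) + (b : ZMod (2 * q)))} - 1) :=
      (Fintype.sum_equiv (Equiv.addRight (a : ZMod (2 * q))) _ _ (fun x => by
        simp [Equiv.addRight])).symm
    rw [e1]
    simp only [L]
    rw [← sum_add_distrib]
    refine sum_le_sum (fun x _ => ?_)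
    have e2 : x + ((a + b : ℕ) : ZMod (2 * q)) = x + (a : ZMod (2 * q)) + (b : ZMod (2 * q)) := by
      push_cast
      ring
    rw [e2]
    have h1 := h.sub {J x, J (x + (a : ZMod (2 * q)))}
      {J (x + (a : ZMod (2 * q))), J (x + (a : ZMod (2 * q)) + (b : ZMod (2 * q)))}
    have h2 : f {J x, J (x + (a : ZMod (2 * q)) + (b : ZMod (2 * q)))} ≤
        f ({J x, J (x + (a : ZMod (2 * q)))} ∪
          {J (x + (a : ZMod (2 * q))), J (x + (a : ZMod (2 * q)) + (b : ZMod (2 * q)))}) := by
      apply h.mono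
      intro C hC
      simp only [mem_insert, mem_singleton, mem_union] at hC ⊢
      tauto
    have h3 : f {J (x + (a : ZMod (2 * q)))} ≤
        f ({J x, J (x + (a : ZMod (2 * q)))} ∩
          {J (x + (a : ZMod (2 * q))), J (x + (a : ZMod (2 * q)) + (b : ZMod (2 * q)))}) := by
      apply h.mono
      intro C hC
      simp only [mem_insert, mem_singleton, mem_inter] at hC ⊢
      tauto
    rw [h.single] at h3
    linarith
  have hpair1 : ∀ a, t ≤ a → a ≤ 2 * t → L a + L (2 * t - a) ≤ 2 * (2 * q * s) := by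
    intro a ha1 ha2
    have e1 : L (2 * t - a) = ∑ x : ZMod (2 * q), (f {J (x + ((a - t : ℕ) : ZMod (2 * q))),
        J (x + ((a - t : ℕ) : ZMod (2 * q)) + ((2 * t - a : ℕ) : ZMod (2 * q)))} - 1) :=
      (Fintype.sum_equiv (Equiv.addRight ((a - t : ℕ) : ZMod (2 * q))) _ _ (fun x => by
        simp [Equiv.addRight])).symm
    rw [e1]
    simp only [L]
    rw [← sum_add_distrib]
    have e2 : (2 : ℝ) * (2 * q * s) = ∑ _x : ZMod (2 * q), (2 * s) := by
      rw [sum_const, card_univ, ZMod.card, nsmul_eq_mul]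
      push_cast
      ring
    rw [e2]
    refine sum_le_sum (fun x _ => ?_)
    have key := h.sub4 hP (KK p q hpq (q + t) x)
      (KK p q hpq (q + t) (x + ((a - t : ℕ) : ZMod (2 * q))))
      (KK_card hpq _ (by omega) _) (KK_card hpq _ (by omega) _)
      (J x) (J (x + (a : ZMod (2 * q))))
      (KK_sub hpq (q + t) q 0 (by omega) x x (by simp))
      (KK_sub hpq (q + t) q t (by omega) _ _ (by
        rw [add_assoc, ← Nat.cast_add]
        congr 2
        omega))
      {J (x + ((a - t : ℕ) : ZMod (2 * q))),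
        J (x + ((a - t : ℕ) : ZMod (2 * q)) + ((2 * t - a : ℕ) : ZMod (2 * q)))} (by
        intro C hC
        rw [mem_insert, mem_singleton] at hC
        rcases hC with rfl | rfl
        · exact ⟨KK_sub hpq (q + t) q (a - t) (by omega) _ _ rfl,
            KK_sub hpq (q + t) q 0 (by omega) _ _ (by simp)⟩
        · refine ⟨KK_sub hpq (q + t) q t (by omega) _ _ ?_,
            KK_sub hpq (q + t) q (2 * t - a) (by omega) _ _ rfl⟩
          rw [add_assoc, ← Nat.cast_add]
          congr 2
          omega)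
    linarith
  have hpair : ∀ a, a ≤ 2 * t → L a + L (2 * t - a) ≤ 2 * (2 * q * s) := by
    intro a ha
    by_cases h1 : t ≤ a
    · exact hpair1 a h1 ha
    · have := hpair1 (2 * t - a) (by omega) (by omega)
      have e : 2 * t - (2 * t - a) = a := by omega
      rw [e] at this
      linarith
  have hnum := numeric L t q (2 * q * s) ht htq h0 hsub hpair
  have hq : (2 * q : ℝ) ≤ L q := by
    have e2 : (2 : ℝ) * q = ∑ _x : ZMod (2 * q), (1 : ℝ) := by
      rw [sum_const, card_univ, ZMod.card, nsmul_eq_mul]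
      push_cast
      ring
    rw [e2]
    refine sum_le_sum (fun x _ => ?_)
    have := h.pair (J x) (J (x + (q : ZMod (2 * q)))) (JJ_disjoint hpq x)
    linarith
  have hq0 : (0 : ℝ) < q := by
    have : 0 < q := by omega
    exact_mod_cast this
  have ht0 : (0 : ℝ) ≤ t := Nat.cast_nonneg t
  have h7 : (t : ℝ) * (2 * q) ≤ 2 * q * s * q := le_trans (mul_le_mul_of_nonneg_left hq ht0) hnum
  have h8 : (2 * q : ℝ) * t ≤ (2 * q) * (s * q) := by nlinarith
  exact le_of_mul_le_mul_left h8 (by positivity)

theorem Poly.main_step (h : Poly p q f) (hq : 1 ≤ q) (hpq : 2 * q ≤ p) :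
    ∀ (t : ℕ) (s : ℝ), t < q → PP p q f t s → (t : ℝ) ≤ s * q := by
  intro t
  induction t using Nat.strong_induction_on with
  | _ t ih =>
    intro s ht hP
    by_cases h0 : t = 0
    · subst h0
      obtain ⟨S, -, hS⟩ := exists_subset_card_eq
        (show q ≤ (univ : Finset (Fin p)).card by rw [card_univ, Fintype.card_fin]; omega)
      have h1 := hP S (by omega)
      have h2 : f {(⟨S, hS⟩ : {s : Finset (Fin p) // s.card = q})} ≤ f (LL q S) := by
        apply h.mono
        intro C hC
        rw [mem_singleton] at hC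
        rw [mem_LL, hC]
      rw [h.single] at h2
      have hs : 0 ≤ s := by linarith
      have : (0 : ℝ) ≤ s * q := mul_nonneg hs (Nat.cast_nonneg q)
      simpa using this
    · by_cases h1 : 2 * t ≤ q
      · exact h.base_step hP (by omega) h1 hpq
      · have h2 := ih (2 * t - q) (by omega) (2 * s - 1) (by omega)
          (h.rec_step hP (by omega) (by omega) hpq)
        rw [Nat.cast_sub (by omega)] at h2
        push_cast at h2
        linarith

/-- The polymatroid bound of the complement of the Kneser graph. -/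
theorem Poly.bound (h : Poly p q f) (hq : 1 ≤ q) (hpq : 2 * q ≤ p) :
    (p : ℝ) / q ≤ f univ := by
  have hqR : (0 : ℝ) < q := by exact_mod_cast hq
  have hm : 2 ≤ p / q := (Nat.le_div_iff_mul_le hq).2 hpq
  have hdiv := Nat.div_add_mod p q
  have hP : PP p q f (p % q) (f univ - (p / q : ℕ)) := by
    intro S hS
    have h1 := h.add_disjoint (p / q - 1) (LL q S) Sᶜ (by
      rw [card_compl, Fintype.card_fin, hS]
      have : (p / q - 1) * q + q = q * (p / q) := by
        obtain ⟨m, hm'⟩ : ∃ m, p / q = m + 1 := ⟨p / q - 1, by omega⟩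
        rw [hm']
        simp only [Nat.add_sub_cancel]
        ring
      omega) (by
      intro B hB
      rw [mem_LL] at hB
      exact disjoint_compl_left.mono_right hB)
    rw [Nat.cast_sub (by omega)] at h1
    push_cast at h1
    linarith
  have h2 := h.main_step hq hpq (p % q) _ (Nat.mod_lt p hq) hP
  rw [div_le_iff₀ hqR]
  have h3 : (p : ℝ) = q * (p / q : ℕ) + (p % q : ℕ) := by exact_mod_cast hdiv.symm
  rw [h3]
  nlinarith

end Pool.Agent.helper37.KN
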