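import Mathlib

set_option autoImplicit false

namespace Pool.Agent.helper37.KN

open Matrix

variable {F : Type*} [Field F] {m n : Type*} [Fintype m] [Fintype n]

/-- rank factorisation -/
theorem rank_fac (A : Matrix m n F) :
    ∃ (X : Matrix m (Fin A.rank) F) (Y : Matrix (Fin A.rank) n F), A = X * Y := by
  classical
  let R : Submodule F (m → F) := LinearMap.range A.mulVecLin
  let b : Module.Basis (Fin (Module.finrank F R)) F R := Module.finBasis F R
  refine ⟨Matrix.of (fun i k => (b k : m → F) i),
    Matrix.of (fun k j => b.repr ⟨A.mulVecLin (Pi.single j 1), LinearMap.mem_range_self _ _⟩ k), ?_⟩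
  ext i j
  have h1 := b.sum_repr ⟨A.mulVecLin (Pi.single j 1), LinearMap.mem_range_self _ _⟩
  have h2 := congrArg (fun v : R => (v : m → F) i) h1
  simp only [Submodule.coe_sum, Submodule.coe_smul, Finset.sum_apply, Pi.smul_apply,
    smul_eq_mul] at h2
  have h3 : A.mulVecLin (Pi.single j 1) i = A i j := by
    rw [Matrix.mulVecLin_apply, Matrix.mulVec_single_one]
    rfl
  rw [Matrix.mul_apply, ← h3, ← h2]
  refine Finset.sum_congr rfl (fun k _ => ?_)
  rw [mul_comm]
  rfl

/-- a matrix of rank at least `k` compresses to the identity of size `k` -/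
theorem rank_compress (A : Matrix m n F) (k : ℕ) (hk : k ≤ A.rank) :
    ∃ (X : Matrix (Fin k) m F) (Y : Matrix n (Fin k) F), X * A * Y = 1 := by
  classical
  let R : Submodule F (m → F) := LinearMap.range A.mulVecLin
  let b : Module.Basis (Fin (Module.finrank F R)) F R := Module.finBasis F R
  have hk' : k ≤ Module.finrank F R := hk
  obtain ⟨φ, hφ⟩ := R.subtype.exists_leftInverse_of_injective (Submodule.ker_subtype R)
  have hy : ∀ c : Fin k, ∃ y : n → F, A.mulVec y = (b (Fin.castLE hk' c) : m → F) := by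
    intro c
    obtain ⟨y, hy⟩ := (b (Fin.castLE hk' c)).2
    exact ⟨y, hy⟩
  choose y hy using hy
  refine ⟨Matrix.of (fun a i => b.repr (φ (Pi.single i 1)) (Fin.castLE hk' a)),
    Matrix.of (fun j c => y c j), ?_⟩
  have key : ∀ (a : Fin k) (v : m → F),
      ∑ i, b.repr (φ (Pi.single i 1)) (Fin.castLE hk' a) * v i
        = b.repr (φ v) (Fin.castLE hk' a) := by
    intro a v
    have h1 : v = ∑ i, v i • (Pi.single i 1 : m → F) := by
      ext i
      simp [Finset.sum_apply, Pi.single_apply]
    conv_rhs => rw [h1]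
    rw [map_sum, map_sum]
    rw [Finsupp.finsetSum_apply]
    refine Finset.sum_congr rfl (fun i _ => ?_)
    rw [map_smul, map_smul, Finsupp.smul_apply, smul_eq_mul, mul_comm]
  ext a c
  rw [Matrix.mul_assoc, Matrix.mul_apply]
  have h2 : ∀ i, (A * Matrix.of (fun j c => y c j)) i c = (b (Fin.castLE hk' c) : m → F) i := by
    intro i
    rw [← hy c]
    rfl
  simp only [h2, Matrix.of_apply]
  rw [key]
  have h3 : φ (b (Fin.castLE hk' c) : m → F) = b (Fin.castLE hk' c) := by
    have := congrArg (fun g => g (b (Fin.castLE hk' c))) hφ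
    simpa using this
  rw [h3, b.repr_self, Matrix.one_apply, Finsupp.single_apply]
  by_cases hac : a = c
  · subst hac
    simp
  · have : ¬ Fin.castLE hk' c = Fin.castLE hk' a := by
      intro h
      apply hac
      have := congrArg Fin.val h
      simp only [Fin.val_castLE] at this
      exact Fin.ext this.symm
    rw [if_neg this, if_neg hac]

omit [Fintype m] in
theorem rank_le_of_fac {κ : Type*} [Fintype κ] (A : Matrix m n F) (X : Matrix m κ F)
    (Y : Matrix κ n F) (h : A = X * Y) : A.rank ≤ Fintype.card κ := by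
  rw [h]
  exact (Matrix.rank_mul_le_left X Y).trans (Matrix.rank_le_card_width X)

theorem le_rank_of_compress {κ : Type*} [Fintype κ] [DecidableEq κ] (A : Matrix m n F)
    (X : Matrix κ m F) (Y : Matrix n κ F) (h : X * A * Y = 1) : Fintype.card κ ≤ A.rank := by
  have h1 : (1 : Matrix κ κ F).rank = Fintype.card κ := Matrix.rank_one
  rw [← h1, ← h]
  exact (Matrix.rank_mul_le_left _ _).trans (Matrix.rank_mul_le_right _ _)

/-- rank of a block diagonal matrix -/
theorem rank_blocks {m₁ m₂ n₁ n₂ : Type*} [Fintype m₁] [Fintype m₂] [Fintype n₁] [Fintype n₂]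
    (A : Matrix m₁ n₁ F) (B : Matrix m₂ n₂ F) :
    (Matrix.fromBlocks A 0 0 B).rank = A.rank + B.rank := by
  classical
  apply le_antisymm
  · obtain ⟨X1, Y1, h1⟩ := rank_fac A
    obtain ⟨X2, Y2, h2⟩ := rank_fac B
    have := rank_le_of_fac (Matrix.fromBlocks A 0 0 B) (Matrix.fromBlocks X1 0 0 X2)
      (Matrix.fromBlocks Y1 0 0 Y2) (by
        rw [Matrix.fromBlocks_multiply]
        simp only [Matrix.mul_zero, Matrix.zero_mul, add_zero, zero_add]
        rw [← h1, ← h2])
    simpa using this
  · obtain ⟨X1, Y1, h1⟩ := rank_compress A A.rank le_rfl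
    obtain ⟨X2, Y2, h2⟩ := rank_compress B B.rank le_rfl
    have := le_rank_of_compress (Matrix.fromBlocks A 0 0 B) (Matrix.fromBlocks X1 0 0 X2)
      (Matrix.fromBlocks Y1 0 0 Y2) (by
        rw [Matrix.fromBlocks_multiply, Matrix.fromBlocks_multiply]
        simp only [Matrix.mul_zero, Matrix.zero_mul, add_zero, zero_add]
        rw [h1, h2, Matrix.fromBlocks_one])
    simpa using this

/-- rank of a Kronecker product is at most the product of the ranks -/
theorem rank_kron_le {m₁ m₂ n₁ n₂ : Type*} [Fintype m₁] [Fintype m₂] [Fintype n₁] [Fintype n₂]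
    (A : Matrix m₁ n₁ F) (B : Matrix m₂ n₂ F) :
    (Matrix.kroneckerMap (fun x y => x * y) A B).rank ≤ A.rank * B.rank := by
  obtain ⟨X1, Y1, h1⟩ := rank_fac A
  obtain ⟨X2, Y2, h2⟩ := rank_fac B
  have := rank_le_of_fac (Matrix.kroneckerMap (fun x y => x * y) A B)
    (Matrix.kroneckerMap (fun x y => x * y) X1 X2)
    (Matrix.kroneckerMap (fun x y => x * y) Y1 Y2) (by
      rw [← Matrix.mul_kronecker_mul, ← h1, ← h2])
  simpa using this

end Pool.Agent.helper37.KN
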