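import Pool.Agent.helper67.KN.Basic
import Pool.Agent.helper37.KN.Poly
import Pool.Agent.helper37.KN.Rank

/-!
# The fractional Haemers bound over a field

`haemers F` is the fractional Haemers bound over `F` (Bukh and Cox). It is a spectral point of the
semiring of finite graphs, and it takes the value `p / q` on the complement of the Kneser graph of
the `q`-subsets of a `p`-set, for all `p ≥ 2 q ≥ 2`.
-/

set_option autoImplicit false

namespace Pool.Agent.helper37.KN

open Matrix

/-- `M` is a `d`-representation of the graph `G` over `F`: a matrix whose entries are `d` by `d`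
blocks indexed by pairs of vertices, with identity blocks on the diagonal and zero blocks at all
pairs of different nonadjacent vertices. -/
def IsRep {F : Type*} [Field F] {V : Type} (G : SimpleGraph V) (d : ℕ)
    (M : Matrix (V × Fin d) (V × Fin d) F) : Prop :=
  (∀ (v : V) (i j : Fin d), M (v, i) (v, j) = if i = j then 1 else 0) ∧
    ∀ u v : V, u ≠ v → ¬ G.Adj u v → ∀ i j : Fin d, M (u, i) (v, j) = 0

/-- The fractional Haemers bound of `G` over `F`: the infimum of `rank M / d` over all `d ≥ 1` and
all `d`-representations `M` of `G` over `F`. -/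
noncomputable def haemers (F : Type*) [Field F] (V : Type) [Fintype V] (G : SimpleGraph V) : ℝ :=
  sInf {x : ℝ | ∃ d : ℕ, 1 ≤ d ∧ ∃ M : Matrix (V × Fin d) (V × Fin d) F,
    IsRep G d M ∧ x = (M.rank : ℝ) / d}

section basic

variable {F : Type*} [Field F] {V : Type} [Fintype V] {G : SimpleGraph V}

theorem haemers_nonempty : {x : ℝ | ∃ d : ℕ, 1 ≤ d ∧ ∃ M : Matrix (V × Fin d) (V × Fin d) F,
    IsRep G d M ∧ x = (M.rank : ℝ) / d}.Nonempty := by
  classical
  refine ⟨_, 1, le_rfl, 1, ⟨fun v i j => ?_, fun u v huv _ i j => ?_⟩, rfl⟩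
  · rw [Matrix.one_apply]
    by_cases h : i = j
    · rw [if_pos (by rw [h]), if_pos h]
    · rw [if_neg (by
        intro h'
        exact h (Prod.ext_iff.1 h').2), if_neg h]
  · rw [Matrix.one_apply, if_neg]
    intro h'
    exact huv (Prod.ext_iff.1 h').1

theorem haemers_bdd : BddBelow {x : ℝ | ∃ d : ℕ, 1 ≤ d ∧
    ∃ M : Matrix (V × Fin d) (V × Fin d) F, IsRep G d M ∧ x = (M.rank : ℝ) / d} := by
  refine ⟨0, ?_⟩
  rintro x ⟨d, _, M, _, rfl⟩
  positivity

theorem haemers_le {d : ℕ} (hd : 1 ≤ d) {M : Matrix (V × Fin d) (V × Fin d) F}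
    (hM : IsRep G d M) : haemers F V G ≤ (M.rank : ℝ) / d :=
  csInf_le haemers_bdd ⟨d, hd, M, hM, rfl⟩

theorem le_haemers {c : ℝ} (h : ∀ (d : ℕ) (M : Matrix (V × Fin d) (V × Fin d) F), 1 ≤ d →
    IsRep G d M → c ≤ (M.rank : ℝ) / d) : c ≤ haemers F V G := by
  refine le_csInf haemers_nonempty ?_
  rintro x ⟨d, hd, M, hM, rfl⟩
  exact h d M hd hM

theorem haemers_approx {c : ℝ} (h : haemers F V G < c) :
    ∃ (d : ℕ) (M : Matrix (V × Fin d) (V × Fin d) F), 1 ≤ d ∧ IsRep G d M ∧
      (M.rank : ℝ) / d < c := by
  obtain ⟨x, ⟨d, hd, M, hM, rfl⟩, hx⟩ := exists_lt_of_csInf_lt haemers_nonempty h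
  exact ⟨d, M, hd, hM, hx⟩

theorem haemers_nonneg : 0 ≤ haemers F V G :=
  le_haemers (fun d M _ _ => by positivity)

end basic

variable (F : Type*) [Field F]

theorem haemers_mono {V W : Type} [Fintype V] [Fintype W] (G : SimpleGraph V)
    (H : SimpleGraph W) (φ : Gᶜ →g Hᶜ) : haemers F V G ≤ haemers F W H := by
  refine le_haemers (fun d M hd hM => ?_)
  have h1 : IsRep G d (M.submatrix (fun x : V × Fin d => (φ x.1, x.2))
      (fun x : V × Fin d => (φ x.1, x.2))) := by
    refine ⟨fun v i j => ?_, fun u v huv hG i j => ?_⟩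
    · simp only [submatrix_apply]
      exact hM.1 (φ v) i j
    · simp only [submatrix_apply]
      have h2 : Gᶜ.Adj u v := by
        rw [SimpleGraph.compl_adj]
        exact ⟨huv, hG⟩
      have h3 := φ.map_adj h2
      rw [SimpleGraph.compl_adj] at h3
      exact hM.2 _ _ h3.1 h3.2 i j
  refine (haemers_le hd h1).trans ?_
  have h4 : (M.submatrix (fun x : V × Fin d => (φ x.1, x.2))
      (fun x : V × Fin d => (φ x.1, x.2))).rank ≤ M.rank := Matrix.rank_submatrix_le _ _ _
  have h5 : (0 : ℝ) < d := by exact_mod_cast hd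
  gcongr

theorem haemers_one : haemers F (Fin 1) (⊥ : SimpleGraph (Fin 1)) = 1 := by
  have key : ∀ (d : ℕ) (M : Matrix (Fin 1 × Fin d) (Fin 1 × Fin d) F), 1 ≤ d →
      IsRep (⊥ : SimpleGraph (Fin 1)) d M → (M.rank : ℝ) / d = 1 := by
    intro d M hd hM
    have h1 : M = 1 := by
      ext ⟨u, i⟩ ⟨v, j⟩
      obtain rfl : u = 0 := Subsingleton.elim _ _
      obtain rfl : v = 0 := Subsingleton.elim _ _
      rw [hM.1 0 i j, Matrix.one_apply]
      by_cases h : i = j
      · rw [if_pos h, if_pos (by rw [h])]
      · rw [if_neg h, if_neg (by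
          intro h'
          exact h (Prod.ext_iff.1 h').2)]
    rw [h1, Matrix.rank_one]
    have h5 : (d : ℝ) ≠ 0 := by
      have : (0 : ℝ) < d := by exact_mod_cast hd
      exact this.ne'
    simp [h5]
  apply le_antisymm
  · obtain ⟨x, d, hd, M, hM, hx⟩ := haemers_nonempty (F := F) (G := (⊥ : SimpleGraph (Fin 1)))
    rw [← key d M hd hM]
    exact haemers_le hd hM
  · exact le_haemers (fun d M hd hM => (key d M hd hM).ge)

theorem haemers_add {V W : Type} [Fintype V] [Fintype W] (G : SimpleGraph V)
    (H : SimpleGraph W) :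
    haemers F (V ⊕ W) (SimpleGraph.fromRel (Sum.LiftRel G.Adj H.Adj))
      = haemers F V G + haemers F W H := by
  classical
  apply le_antisymm
  · refine le_of_forall_pos_lt_add (fun ε hε => ?_)
    obtain ⟨d, M, hd, hM, h1⟩ := haemers_approx (F := F) (G := G)
      (show haemers F V G < haemers F V G + ε / 2 by linarith)
    obtain ⟨e, N, he, hN, h2⟩ := haemers_approx (F := F) (G := H)
      (show haemers F W H < haemers F W H + ε / 2 by linarith)
    have hd0 : (0 : ℝ) < d := by exact_mod_cast hd
    have he0 : (0 : ℝ) < e := by exact_mod_cast he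
    -- common multiplicity
    let eq1 : Fin (d * e) ≃ Fin d × Fin e := finProdFinEquiv.symm
    let A : Matrix (V × Fin (d * e)) (V × Fin (d * e)) F :=
      (Matrix.kroneckerMap (fun x y => x * y) M (1 : Matrix (Fin e) (Fin e) F)).submatrix
        (fun x => ((x.1, (eq1 x.2).1), (eq1 x.2).2)) (fun x => ((x.1, (eq1 x.2).1), (eq1 x.2).2))
    let B : Matrix (W × Fin (d * e)) (W × Fin (d * e)) F :=
      (Matrix.kroneckerMap (fun x y => x * y) N (1 : Matrix (Fin d) (Fin d) F)).submatrix
        (fun x => ((x.1, (eq1 x.2).2), (eq1 x.2).1)) (fun x => ((x.1, (eq1 x.2).2), (eq1 x.2).1))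
    have hA : A.rank ≤ M.rank * e := by
      refine (Matrix.rank_submatrix_le _ _ _).trans ((rank_kron_le _ _).trans ?_)
      rw [Matrix.rank_one, Fintype.card_fin]
    have hB : B.rank ≤ N.rank * d := by
      refine (Matrix.rank_submatrix_le _ _ _).trans ((rank_kron_le _ _).trans ?_)
      rw [Matrix.rank_one, Fintype.card_fin]
    have hAent : ∀ (u v : V) (i j : Fin (d * e)), A (u, i) (v, j)
        = M (u, (eq1 i).1) (v, (eq1 j).1) * (if (eq1 i).2 = (eq1 j).2 then 1 else 0) := by
      intro u v i j
      simp only [A, submatrix_apply, kroneckerMap_apply, Matrix.one_apply]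
    have hBent : ∀ (u v : W) (i j : Fin (d * e)), B (u, i) (v, j)
        = N (u, (eq1 i).2) (v, (eq1 j).2) * (if (eq1 i).1 = (eq1 j).1 then 1 else 0) := by
      intro u v i j
      simp only [B, submatrix_apply, kroneckerMap_apply, Matrix.one_apply]
    let P : Matrix ((V ⊕ W) × Fin (d * e)) ((V ⊕ W) × Fin (d * e)) F :=
      (Matrix.fromBlocks A 0 0 B).submatrix (Equiv.sumProdDistrib V W (Fin (d * e)))
        (Equiv.sumProdDistrib V W (Fin (d * e)))
    have hPr : P.rank = A.rank + B.rank := by
      rw [← rank_blocks]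
      exact Matrix.rank_submatrix _ _ _
    have hP : IsRep (SimpleGraph.fromRel (Sum.LiftRel G.Adj H.Adj)) (d * e) P := by
      refine ⟨fun v i j => ?_, fun u v huv hG i j => ?_⟩
      · rcases v with v | v
        · change A (v, i) (v, j) = _
          rw [hAent, hM.1]
          by_cases h : i = j
          · subst h
            simp
          · rw [if_neg h]
            by_cases h3 : (eq1 i).1 = (eq1 j).1
            · by_cases h4 : (eq1 i).2 = (eq1 j).2
              · exact absurd (eq1.injective (Prod.ext h3 h4)) h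
              · rw [if_neg h4, mul_zero]
            · rw [if_neg h3, zero_mul]
        · change B (v, i) (v, j) = _
          rw [hBent, hN.1]
          by_cases h : i = j
          · subst h
            simp
          · rw [if_neg h]
            by_cases h3 : (eq1 i).2 = (eq1 j).2
            · by_cases h4 : (eq1 i).1 = (eq1 j).1
              · exact absurd (eq1.injective (Prod.ext h4 h3)) h
              · rw [if_neg h4, mul_zero]
            · rw [if_neg h3, zero_mul]
      · rcases u with u | u <;> rcases v with v | v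
        · change A (u, i) (v, j) = _
          rw [hAent, hM.2 u v (fun h => huv (by rw [h])) (fun h => hG ?_), zero_mul]
          rw [SimpleGraph.fromRel_adj]
          exact ⟨huv, Or.inl (Sum.LiftRel.inl h)⟩
        · rfl
        · rfl
        · change B (u, i) (v, j) = _
          rw [hBent, hN.2 u v (fun h => huv (by rw [h])) (fun h => hG ?_), zero_mul]
          rw [SimpleGraph.fromRel_adj]
          exact ⟨huv, Or.inl (Sum.LiftRel.inr h)⟩
    have hde : 1 ≤ d * e := Nat.mul_pos hd he
    have h3 := haemers_le hde hP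
    have h4 : ((P.rank : ℕ) : ℝ) ≤ M.rank * e + N.rank * d := by
      have : P.rank ≤ M.rank * e + N.rank * d := by
        rw [hPr]
        omega
      exact_mod_cast this
    have h5 : (P.rank : ℝ) / ((d * e : ℕ) : ℝ) ≤ (M.rank : ℝ) / d + (N.rank : ℝ) / e := by
      rw [div_add_div _ _ hd0.ne' he0.ne']
      push_cast
      have : (0 : ℝ) < d * e := by positivity
      rw [div_le_div_iff_of_pos_right this]
      linarith
    linarith
  · refine le_haemers (fun d P hd hP => ?_)
    have hd0 : (0 : ℝ) < d := by exact_mod_cast hd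
    let A : Matrix (V × Fin d) (V × Fin d) F :=
      P.submatrix (fun x => (Sum.inl x.1, x.2)) (fun x => (Sum.inl x.1, x.2))
    let B : Matrix (W × Fin d) (W × Fin d) F :=
      P.submatrix (fun x => (Sum.inr x.1, x.2)) (fun x => (Sum.inr x.1, x.2))
    have hA : IsRep G d A := by
      refine ⟨fun v i j => hP.1 (Sum.inl v) i j, fun u v huv hG i j => ?_⟩
      refine hP.2 (Sum.inl u) (Sum.inl v) (fun h => huv (Sum.inl.inj h)) (fun h => hG ?_) i j
      rw [SimpleGraph.fromRel_adj] at h
      rcases h.2 with h | h
      · exact Sum.liftRel_inl_inl.1 h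
      · exact (Sum.liftRel_inl_inl.1 h).symm
    have hB : IsRep H d B := by
      refine ⟨fun v i j => hP.1 (Sum.inr v) i j, fun u v huv hG i j => ?_⟩
      refine hP.2 (Sum.inr u) (Sum.inr v) (fun h => huv (Sum.inr.inj h)) (fun h => hG ?_) i j
      rw [SimpleGraph.fromRel_adj] at h
      rcases h.2 with h | h
      · exact Sum.liftRel_inr_inr.1 h
      · exact (Sum.liftRel_inr_inr.1 h).symm
    have hPr : P.rank = A.rank + B.rank := by
      rw [← rank_blocks]
      have : P = (Matrix.fromBlocks A 0 0 B).submatrix (Equiv.sumProdDistrib V W (Fin d))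
          (Equiv.sumProdDistrib V W (Fin d)) := by
        ext ⟨u, i⟩ ⟨v, j⟩
        rcases u with u | u <;> rcases v with v | v
        · rfl
        · refine hP.2 _ _ (by simp) (fun h => ?_) i j
          rw [SimpleGraph.fromRel_adj] at h
          rcases h.2 with h | h
          · exact Sum.not_liftRel_inl_inr h
          · exact Sum.not_liftRel_inr_inl h
        · refine hP.2 _ _ (by simp) (fun h => ?_) i j
          rw [SimpleGraph.fromRel_adj] at h
          rcases h.2 with h | h
          · exact Sum.not_liftRel_inr_inl h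
          · exact Sum.not_liftRel_inl_inr h
        · rfl
      rw [this]
      exact Matrix.rank_submatrix _ _ _
    have h1 := haemers_le hd hA
    have h2 := haemers_le hd hB
    rw [hPr]
    push_cast
    rw [add_div]
    linarith

theorem haemers_mul {V W : Type} [Fintype V] [Fintype W] (G : SimpleGraph V)
    (H : SimpleGraph W) :
    haemers F (V × W) (SimpleGraph.fromRel (fun x y : V × W =>
      (x.1 = y.1 ∨ G.Adj x.1 y.1) ∧ (x.2 = y.2 ∨ H.Adj x.2 y.2)))
      = haemers F V G * haemers F W H := by
  classical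
  apply le_antisymm
  · -- upper bound: Kronecker products
    have hprod : ∀ (d : ℕ) (M : Matrix (V × Fin d) (V × Fin d) F) (e : ℕ)
        (N : Matrix (W × Fin e) (W × Fin e) F), 1 ≤ d → IsRep G d M → 1 ≤ e → IsRep H e N →
        haemers F (V × W) (SimpleGraph.fromRel (fun x y : V × W =>
          (x.1 = y.1 ∨ G.Adj x.1 y.1) ∧ (x.2 = y.2 ∨ H.Adj x.2 y.2)))
          ≤ ((M.rank : ℝ) / d) * ((N.rank : ℝ) / e) := by
      intro d M e N hd hM he hN
      have hd0 : (0 : ℝ) < d := by exact_mod_cast hd
      have he0 : (0 : ℝ) < e := by exact_mod_cast he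
      let eq1 : Fin (d * e) ≃ Fin d × Fin e := finProdFinEquiv.symm
      let r : (V × W) × Fin (d * e) → (V × Fin d) × (W × Fin e) :=
        fun x => ((x.1.1, (eq1 x.2).1), (x.1.2, (eq1 x.2).2))
      let P : Matrix ((V × W) × Fin (d * e)) ((V × W) × Fin (d * e)) F :=
        (Matrix.kroneckerMap (fun x y => x * y) M N).submatrix r r
      have hPr : P.rank ≤ M.rank * N.rank :=
        (Matrix.rank_submatrix_le _ _ _).trans (rank_kron_le _ _)
      have hPent : ∀ (x y : V × W) (i j : Fin (d * e)), P (x, i) (y, j)
          = M (x.1, (eq1 i).1) (y.1, (eq1 j).1) * N (x.2, (eq1 i).2) (y.2, (eq1 j).2) := by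
        intro x y i j
        rfl
      have hP : IsRep (SimpleGraph.fromRel (fun x y : V × W =>
          (x.1 = y.1 ∨ G.Adj x.1 y.1) ∧ (x.2 = y.2 ∨ H.Adj x.2 y.2))) (d * e) P := by
        refine ⟨fun v i j => ?_, fun u v huv hG i j => ?_⟩
        · rw [hPent, hM.1, hN.1]
          by_cases h : i = j
          · subst h
            simp
          · rw [if_neg h]
            by_cases h3 : (eq1 i).1 = (eq1 j).1
            · by_cases h4 : (eq1 i).2 = (eq1 j).2
              · exact absurd (eq1.injective (Prod.ext h3 h4)) h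
              · rw [if_neg h4, mul_zero]
            · rw [if_neg h3, zero_mul]
        · rw [hPent]
          by_cases h3 : u.1 = v.1 ∨ G.Adj u.1 v.1
          · by_cases h4 : u.2 = v.2 ∨ H.Adj u.2 v.2
            · exfalso
              apply hG
              rw [SimpleGraph.fromRel_adj]
              exact ⟨huv, Or.inl ⟨h3, h4⟩⟩
            · push Not at h4
              rw [hN.2 _ _ h4.1 h4.2, mul_zero]
          · push Not at h3
            rw [hM.2 _ _ h3.1 h3.2, zero_mul]
      have hde : 1 ≤ d * e := Nat.mul_pos hd he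
      refine (haemers_le hde hP).trans ?_
      rw [div_mul_div_comm]
      have h4 : ((P.rank : ℕ) : ℝ) ≤ M.rank * N.rank := by exact_mod_cast hPr
      push_cast
      have : (0 : ℝ) < d * e := by positivity
      exact (div_le_div_iff_of_pos_right this).2 h4
    -- pass to the infimum twice
    have step1 : ∀ (d : ℕ) (M : Matrix (V × Fin d) (V × Fin d) F), 1 ≤ d → IsRep G d M →
        haemers F (V × W) (SimpleGraph.fromRel (fun x y : V × W =>
          (x.1 = y.1 ∨ G.Adj x.1 y.1) ∧ (x.2 = y.2 ∨ H.Adj x.2 y.2)))
          ≤ ((M.rank : ℝ) / d) * haemers F W H := by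
      intro d M hd hM
      refine le_of_forall_pos_lt_add (fun ε hε => ?_)
      have hnn : (0 : ℝ) ≤ (M.rank : ℝ) / d := by positivity
      obtain ⟨e, N, he, hN, h2⟩ := haemers_approx (F := F) (G := H)
        (show haemers F W H < haemers F W H + ε / ((M.rank : ℝ) / d + 1) by
          have : 0 < ε / ((M.rank : ℝ) / d + 1) := by positivity
          linarith)
      have h3 := hprod d M e N hd hM he hN
      have h4 : ((M.rank : ℝ) / d) * ((N.rank : ℝ) / e)
          ≤ ((M.rank : ℝ) / d) * (haemers F W H + ε / ((M.rank : ℝ) / d + 1)) :=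
        mul_le_mul_of_nonneg_left h2.le hnn
      have h5 : ((M.rank : ℝ) / d) * (ε / ((M.rank : ℝ) / d + 1)) < ε := by
        rw [mul_div_assoc', div_lt_iff₀ (by positivity)]
        nlinarith
      rw [mul_add] at h4
      linarith
    refine le_of_forall_pos_lt_add (fun ε hε => ?_)
    have hnn : (0 : ℝ) ≤ haemers F W H := haemers_nonneg
    obtain ⟨d, M, hd, hM, h2⟩ := haemers_approx (F := F) (G := G)
      (show haemers F V G < haemers F V G + ε / (haemers F W H + 1) by
        have : 0 < ε / (haemers F W H + 1) := by positivity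
        linarith)
    have h3 := step1 d M hd hM
    have h4 : ((M.rank : ℝ) / d) * haemers F W H
        ≤ (haemers F V G + ε / (haemers F W H + 1)) * haemers F W H :=
      mul_le_mul_of_nonneg_right h2.le hnn
    have h5 : (ε / (haemers F W H + 1)) * haemers F W H < ε := by
      rw [div_mul_eq_mul_div, div_lt_iff₀ (by positivity)]
      nlinarith
    rw [add_mul] at h4
    linarith
  · -- lower bound: compress the diagonal blocks
    refine le_haemers (fun d P hd hP => ?_)
    have hd0 : (0 : ℝ) < d := by exact_mod_cast hd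
    set c := haemers F V G with hc
    by_cases hc0 : c = 0
    · rw [hc0, zero_mul]
      positivity
    have hcpos : 0 < c := lt_of_le_of_ne haemers_nonneg (Ne.symm hc0)
    have hrep : ∀ w : W, IsRep G d (P.submatrix (fun x : V × Fin d => ((x.1, w), x.2))
        (fun x : V × Fin d => ((x.1, w), x.2))) := by
      intro w
      refine ⟨fun v i j => hP.1 (v, w) i j, fun u v huv hG i j => ?_⟩
      refine hP.2 (u, w) (v, w) (fun h => huv (Prod.ext_iff.1 h).1) (fun h => ?_) i j
      rw [SimpleGraph.fromRel_adj] at h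
      rcases h.2 with h | h
      · rcases h.1 with h | h
        · exact huv h
        · exact hG h
      · rcases h.1 with h | h
        · exact huv h.symm
        · exact hG h.symm
    obtain ⟨r, hr⟩ : ∃ r : ℕ, r = ⌈d * c⌉₊ := ⟨_, rfl⟩
    have hr0 : ∀ w : W, r ≤ (P.submatrix (fun x : V × Fin d => ((x.1, w), x.2))
        (fun x : V × Fin d => ((x.1, w), x.2))).rank := by
      intro w
      rw [hr, Nat.ceil_le]
      have := haemers_le hd (hrep w)
      rw [le_div_iff₀ hd0] at this
      linarith
    choose X Y hXY using fun w => rank_compress _ _ (hr0 w)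
    have hr1 : 1 ≤ r := by
      rw [hr, Nat.one_le_ceil_iff]
      positivity
    let XX : Matrix (W × Fin r) ((V × W) × Fin d) F :=
      Matrix.of (fun a x => if a.1 = x.1.2 then X a.1 a.2 (x.1.1, x.2) else 0)
    let YY : Matrix ((V × W) × Fin d) (W × Fin r) F :=
      Matrix.of (fun y b => if b.1 = y.1.2 then Y b.1 (y.1.1, y.2) b.2 else 0)
    let N : Matrix (W × Fin r) (W × Fin r) F := XX * P * YY
    have hNent : ∀ (w w' : W) (i j : Fin r), N (w, i) (w', j)
        = ∑ y : V × Fin d, (∑ x : V × Fin d, X w i x * P ((x.1, w), x.2) ((y.1, w'), y.2))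
            * Y w' y j := by
      intro w w' i j
      have hsum : ∀ g : (V × W) × Fin d → F, ∀ w0 : W, (∀ z, z.1.2 ≠ w0 → g z = 0) →
          ∑ z, g z = ∑ y : V × Fin d, g ((y.1, w0), y.2) := by
        intro g w0 hg
        symm
        refine Finset.sum_of_injOn (fun y : V × Fin d => ((y.1, w0), y.2)) ?_ ?_ ?_ ?_
        · intro a _ b _ hab
          simp only [Prod.mk.injEq] at hab
          exact Prod.ext hab.1.1 hab.2
        · intro a _
          exact Finset.mem_coe.2 (Finset.mem_univ _)
        · intro z _ hz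
          apply hg
          intro hz'
          apply hz
          refine ⟨(z.1.1, z.2), Finset.mem_coe.2 (Finset.mem_univ _), ?_⟩
          rw [← hz']
        · intro a _
          rfl
      simp only [N]
      rw [Matrix.mul_apply, hsum _ w' (fun z hz => by
        simp only [YY, Matrix.of_apply]
        rw [if_neg (Ne.symm hz), mul_zero])]
      refine Finset.sum_congr rfl (fun y _ => ?_)
      rw [Matrix.mul_apply, hsum _ w (fun z hz => by
        simp only [XX, Matrix.of_apply]
        rw [if_neg (Ne.symm hz), zero_mul])]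
      simp only [XX, YY, Matrix.of_apply, if_true]
    have hN : IsRep H r N := by
      refine ⟨fun w i j => ?_, fun w w' hw hH i j => ?_⟩
      · rw [hNent]
        have h1 := congrFun (congrFun (hXY w) i) j
        rw [Matrix.mul_apply, Matrix.one_apply] at h1
        simp only [Matrix.mul_apply, submatrix_apply] at h1
        exact h1
      · rw [hNent]
        refine Finset.sum_eq_zero (fun y _ => ?_)
        rw [Finset.sum_eq_zero (fun x _ => ?_), zero_mul]
        rw [hP.2 (x.1, w) (y.1, w') (fun h => hw (Prod.ext_iff.1 h).2) (fun h => ?_), mul_zero]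
        rw [SimpleGraph.fromRel_adj] at h
        rcases h.2 with h | h
        · rcases h.2 with h | h
          · exact hw h
          · exact hH h
        · rcases h.2 with h | h
          · exact hw h.symm
          · exact hH h.symm
    have hNr : N.rank ≤ P.rank :=
      (Matrix.rank_mul_le_left _ _).trans (Matrix.rank_mul_le_right _ _)
    have h1 := haemers_le hr1 hN
    have hr0' : (0 : ℝ) < r := by exact_mod_cast hr1
    rw [le_div_iff₀ hr0'] at h1
    rw [le_div_iff₀ hd0]
    have h2 : (d : ℝ) * c ≤ r := by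
      rw [hr]
      exact Nat.le_ceil _
    have h3 : (N.rank : ℝ) ≤ P.rank := by exact_mod_cast hNr
    have hnn : (0 : ℝ) ≤ haemers F W H := haemers_nonneg
    nlinarith

/-- The fractional Haemers bound is a spectral point. -/
theorem haemers_spectral : Pool.Agent.helper67.KN.IsSpectralPoint (haemers F) where
  nonneg _ _ _ := haemers_nonneg
  mono _ _ _ _ G H h := haemers_mono F G H h.some
  add _ _ _ _ G H := haemers_add F G H
  mul _ _ _ _ G H := haemers_mul F G H
  one := haemers_one F

/-! ### The value on complements of Kneser graphs -/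

open Pool.Agent.helper67.KN (KC)

theorem KC_not_adj {p q : ℕ} {A B : {s : Finset (Fin p) // s.card = q}} (hAB : A ≠ B)
    (h : ¬ (KC p q).Adj A B) : Disjoint A.1 B.1 := by
  unfold KC at h
  rw [SimpleGraph.compl_adj] at h
  push Not at h
  have h1 := h hAB
  rw [SimpleGraph.fromRel_adj] at h1
  rcases h1.2 with h2 | h2
  · exact h2
  · exact h2.symm

theorem KC_not_adj' {p q : ℕ} {A B : {s : Finset (Fin p) // s.card = q}} (hAB : A ≠ B)
    (h : Disjoint A.1 B.1) : ¬ (KC p q).Adj A B := by
  unfold KC
  rw [SimpleGraph.compl_adj]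
  push Not
  intro _
  rw [SimpleGraph.fromRel_adj]
  exact ⟨hAB, Or.inl h⟩

theorem haemers_KC_le (p q : ℕ) (hq : 1 ≤ q) :
    haemers F _ (KC p q) ≤ (p : ℝ) / q := by
  classical
  let E : Matrix ({s : Finset (Fin p) // s.card = q} × Fin q) (Fin p) F :=
    Matrix.of (fun x a => if x.1.1.orderEmbOfFin x.1.2 x.2 = a then 1 else 0)
  have hent : ∀ (A B : {s : Finset (Fin p) // s.card = q}) (i j : Fin q),
      (E * Eᵀ) (A, i) (B, j)
        = if A.1.orderEmbOfFin A.2 i = B.1.orderEmbOfFin B.2 j then 1 else 0 := by
    intro A B i j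
    rw [Matrix.mul_apply]
    simp only [E, Matrix.transpose_apply, Matrix.of_apply]
    rw [Finset.sum_eq_single (A.1.orderEmbOfFin A.2 i)]
    · rw [if_pos rfl, one_mul]
      by_cases h : A.1.orderEmbOfFin A.2 i = B.1.orderEmbOfFin B.2 j
      · rw [if_pos h.symm, if_pos h]
      · rw [if_neg (fun h' => h h'.symm), if_neg h]
    · intro b _ hb
      rw [if_neg (fun h => hb h.symm), zero_mul]
    · intro h
      exact absurd (Finset.mem_univ _) h
  have hrep : IsRep (KC p q) q (E * Eᵀ) := by
    refine ⟨fun A i j => ?_, fun A B hAB hG i j => ?_⟩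
    · rw [hent]
      by_cases h : i = j
      · rw [if_pos h, if_pos (by rw [h])]
      · rw [if_neg h, if_neg (fun h' => h ((A.1.orderEmbOfFin A.2).injective h'))]
    · rw [hent, if_neg]
      intro h
      have h1 := KC_not_adj hAB hG
      rw [Finset.disjoint_left] at h1
      refine h1 (Finset.orderEmbOfFin_mem A.1 A.2 i) ?_
      rw [h]
      exact Finset.orderEmbOfFin_mem B.1 B.2 j
  refine (haemers_le hq hrep).trans ?_
  have h1 : (E * Eᵀ).rank ≤ p := by
    have := (Matrix.rank_mul_le_left E Eᵀ).trans (Matrix.rank_le_card_width E)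
    rwa [Fintype.card_fin] at this
  have h2 : (0 : ℝ) < q := by exact_mod_cast hq
  have h3 : ((E * Eᵀ).rank : ℝ) ≤ p := by exact_mod_cast h1
  gcongr

section lower

variable {F}

/-- the span of the rows that belong to a vertex -/
def rowSp {V : Type} {d : ℕ} (M : Matrix (V × Fin d) (V × Fin d) F) (v : V) :
    Submodule F (V × Fin d → F) :=
  Submodule.span F (Set.range (fun i : Fin d => M.row (v, i)))

theorem rowSp_finrank_le {V : Type} [Fintype V] {d : ℕ} (M : Matrix (V × Fin d) (V × Fin d) F)
    (v : V) : Module.finrank F (rowSp M v) ≤ d := by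
  have := finrank_range_le_card (R := F) (fun i : Fin d => M.row (v, i))
  rw [Fintype.card_fin] at this
  exact this

/-- if `v` is different from and nonadjacent to all vertices of `S`, the rows of `v` are
independent of the rows of `S` -/
theorem rowSp_step {V : Type} [Fintype V] {G : SimpleGraph V} {d : ℕ}
    {M : Matrix (V × Fin d) (V × Fin d) F} (hM : IsRep G d M) (v : V) (S : Finset V)
    (hS : ∀ u ∈ S, u ≠ v ∧ ¬ G.Adj u v) :
    Module.finrank F (⨆ u ∈ S, rowSp M u : Submodule F (V × Fin d → F)) + d ≤
      Module.finrank F (rowSp M v ⊔ ⨆ u ∈ S, rowSp M u : Submodule F (V × Fin d → F)) := by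
  classical
  -- the projection to the columns of `v`
  let π : (V × Fin d → F) →ₗ[F] (Fin d → F) := LinearMap.pi (fun j => LinearMap.proj (v, j))
  have hπ0 : (⨆ u ∈ S, rowSp M u : Submodule F (V × Fin d → F)) ≤ LinearMap.ker π := by
    refine iSup₂_le (fun u hu => ?_)
    refine Submodule.span_le.2 ?_
    rintro x ⟨i, rfl⟩
    rw [SetLike.mem_coe, LinearMap.mem_ker]
    ext j
    exact hM.2 u v (hS u hu).1 (hS u hu).2 i j
  have hπ1 : ∀ i : Fin d, π (M.row (v, i)) = Pi.single i 1 := by
    intro i
    ext j
    have := hM.1 v i j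
    change M (v, i) (v, j) = _
    rw [this, Pi.single_apply]
    by_cases h : i = j
    · rw [if_pos h, if_pos h.symm]
    · rw [if_neg h, if_neg (Ne.symm h)]
  have hinj : Disjoint (rowSp M v) (LinearMap.ker π) := by
    rw [Submodule.disjoint_def]
    intro x hx hxk
    obtain ⟨c, rfl⟩ := (Submodule.mem_span_range_iff_exists_fun F).1 hx
    rw [LinearMap.mem_ker, map_sum] at hxk
    simp only [map_smul, hπ1] at hxk
    have hc : ∀ i, c i = 0 := by
      intro i
      have := congrFun hxk i
      simpa [Finset.sum_apply, Pi.single_apply] using this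
    simp [hc]
  have hd : d ≤ Module.finrank F (rowSp M v) := by
    have h1 : LinearIndependent F (fun i : Fin d => M.row (v, i)) := by
      apply LinearIndependent.of_comp π
      have : (⇑π ∘ fun i : Fin d => M.row (v, i)) = fun i => Pi.single i 1 := by
        funext i
        exact hπ1 i
      rw [this]
      exact Pi.linearIndependent_single_one (Fin d) F
    have h2 := finrank_span_eq_card h1
    rw [Fintype.card_fin] at h2
    exact h2.ge
  have h3 := Submodule.finrank_sup_add_finrank_inf_eq (rowSp M v)
    (⨆ u ∈ S, rowSp M u : Submodule F (V × Fin d → F))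
  have h4 : Module.finrank F ((rowSp M v) ⊓
      (⨆ u ∈ S, rowSp M u : Submodule F (V × Fin d → F)) : Submodule F (V × Fin d → F)) = 0 := by
    rw [(hinj.mono_right hπ0).eq_bot, finrank_bot]
  rw [h4] at h3
  omega

theorem le_haemers_KC (p q : ℕ) (hq : 1 ≤ q) (hpq : 2 * q ≤ p) :
    (p : ℝ) / q ≤ haemers F _ (KC p q) := by
  classical
  refine le_haemers (fun d M hd hM => ?_)
  have hd0 : (0 : ℝ) < d := by exact_mod_cast hd
  let f : Finset {s : Finset (Fin p) // s.card = q} → ℝ :=
    fun S => (Module.finrank F (⨆ u ∈ S, rowSp M u : Submodule F _) : ℝ) / d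
  have hf : Poly p q f := by
    refine ⟨?_, ?_, ?_, ?_, ?_⟩
    · simp [f]
    · intro S T hST
      have : Module.finrank F (⨆ u ∈ S, rowSp M u : Submodule F _) ≤
          Module.finrank F (⨆ u ∈ T, rowSp M u : Submodule F _) :=
        Submodule.finrank_mono (biSup_mono (fun u hu => hST hu))
      have h2 : (Module.finrank F (⨆ u ∈ S, rowSp M u : Submodule F _) : ℝ) ≤
          Module.finrank F (⨆ u ∈ T, rowSp M u : Submodule F _) := by exact_mod_cast this
      exact (div_le_div_iff_of_pos_right hd0).2 h2
    · intro S T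
      have h1 := Submodule.finrank_sup_add_finrank_inf_eq
        (⨆ u ∈ S, rowSp M u : Submodule F _) (⨆ u ∈ T, rowSp M u : Submodule F _)
      have h2 : (⨆ u ∈ S ∪ T, rowSp M u : Submodule F _)
          = (⨆ u ∈ S, rowSp M u) ⊔ (⨆ u ∈ T, rowSp M u) := Finset.iSup_union
      have h3 : Module.finrank F (⨆ u ∈ S ∩ T, rowSp M u : Submodule F _) ≤
          Module.finrank F ((⨆ u ∈ S, rowSp M u : Submodule F _) ⊓
            (⨆ u ∈ T, rowSp M u : Submodule F _) : Submodule F _) := by
        apply Submodule.finrank_mono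
        refine le_inf (biSup_mono (fun u hu => ?_)) (biSup_mono (fun u hu => ?_))
        · exact (Finset.mem_inter.1 hu).1
        · exact (Finset.mem_inter.1 hu).2
      simp only [f]
      rw [← add_div, ← add_div]
      apply (div_le_div_iff_of_pos_right hd0).2
      rw [h2]
      have h4 : Module.finrank F ((⨆ u ∈ S, rowSp M u) ⊔ (⨆ u ∈ T, rowSp M u) : Submodule F _)
          + Module.finrank F (⨆ u ∈ S ∩ T, rowSp M u : Submodule F _)
          ≤ Module.finrank F (⨆ u ∈ S, rowSp M u : Submodule F _)
            + Module.finrank F (⨆ u ∈ T, rowSp M u : Submodule F _) := by omega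
      exact_mod_cast h4
    · intro A
      have e : (⨆ u ∈ ({A} : Finset {s : Finset (Fin p) // s.card = q}), rowSp M u :
          Submodule F _) = rowSp M A := Finset.iSup_singleton A _
      simp only [f]
      rw [e, div_le_one hd0]
      exact_mod_cast rowSp_finrank_le M A
    · intro A S hS
      have h1 : ∀ u ∈ S, u ≠ A ∧ ¬ (KC p q).Adj u A := by
        intro u hu
        have h2 := hS u hu
        have h3 : u ≠ A := by
          rintro rfl
          have h4 := (Finset.disjoint_self_iff_empty _).1 h2
          have h5 := u.2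
          rw [h4, Finset.card_empty] at h5
          omega
        exact ⟨h3, KC_not_adj' h3 h2.symm⟩
      have h2 := rowSp_step hM A S h1
      simp only [f]
      rw [Finset.iSup_insert]
      rw [div_add_one hd0.ne']
      apply (div_le_div_iff_of_pos_right hd0).2
      exact_mod_cast h2
  have h1 := hf.bound hq hpq
  refine h1.trans ?_
  simp only [f]
  apply (div_le_div_iff_of_pos_right hd0).2
  have h2 : Module.finrank F (⨆ u ∈ (Finset.univ : Finset {s : Finset (Fin p) // s.card = q}),
      rowSp M u : Submodule F _) ≤ M.rank := by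
    rw [Matrix.rank_eq_finrank_span_row]
    apply Submodule.finrank_mono
    refine iSup₂_le (fun u _ => ?_)
    refine Submodule.span_mono ?_
    rintro x ⟨i, rfl⟩
    exact ⟨(u, i), rfl⟩
  exact_mod_cast h2

end lower

/-- The fractional Haemers bound is Kneser-normalised. -/
theorem haemers_KC (p q : ℕ) (hq : 1 ≤ q) (hpq : 2 * q ≤ p) :
    haemers F _ (KC p q) = (p : ℝ) / q :=
  le_antisymm (haemers_KC_le F p q hq) (le_haemers_KC p q hq hpq)

end Pool.Agent.helper37.KN
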